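import Pool.Agent.V11192.Frames.Disc

/-!
Structure of immersed closed curves lying over the unit circle on a two-sheeted (pinched) curve.
-/

set_option autoImplicit false
open Set Filter Topology Metric

namespace Pool.Agent.V11192.Frames

/-- If `|F| = |G|` then `|F'| = |G'|`. -/
theorem abs_deriv_eq {F G : ℝ → ℝ} {F' G' t : ℝ} (hF : HasDerivAt F F' t) (hG : HasDerivAt G G' t)
    (h : ∀ s, |F s| = |G s|) : |F'| = |G'| := by
  by_cases h0 : F t = 0
  · have hG0 : G t = 0 := by
      have := h t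
      rw [h0, abs_zero] at this
      exact abs_eq_zero.1 this.symm
    have h1 := (hasDerivAt_iff_tendsto_slope.1 hF).abs
    have h2 := (hasDerivAt_iff_tendsto_slope.1 hG).abs
    have h3 : (fun s => |slope F t s|) = fun s => |slope G t s| := by
      funext s
      rw [slope_def_field, slope_def_field, h0, hG0, sub_zero, sub_zero, abs_div, abs_div, h s]
    rw [h3] at h1
    exact tendsto_nhds_unique h1 h2
  · have h1 := hF.mul hF
    have h2 := hG.mul hG
    have h3 : (F * F) = (G * G) := by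
      funext s
      simp only [Pi.mul_apply]
      rw [← abs_mul_abs_self (F s), ← abs_mul_abs_self (G s), h s]
    rw [h3] at h1
    have h4 := h1.unique h2
    have h5 : F t * F' = G t * G' := by linarith
    have h6 : |F t| * |F'| = |F t| * |G'| := by
      rw [← abs_mul, h5, abs_mul, h t]
    exact mul_left_cancel₀ (abs_ne_zero.2 h0) h6

/-- Sign of a continuous nowhere zero function. -/
theorem exists_sign (f : ℝ → ℝ) (hf : Continuous f) (h : ∀ t, f t ≠ 0) :
    ∃ σ : ℝ, (σ = 1 ∨ σ = -1) ∧ ∀ t, 0 < σ * f t := by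
  rcases lt_or_gt_of_ne (h 0) with h0 | h0
  · refine ⟨-1, Or.inr rfl, fun t => ?_⟩
    by_contra hcon
    obtain ⟨u, hu⟩ := mem_range_of_exists_le_of_exists_ge hf ⟨0, h0.le⟩ ⟨t, by linarith⟩
    exact h u hu
  · refine ⟨1, Or.inl rfl, fun t => ?_⟩
    by_contra hcon
    obtain ⟨u, hu⟩ := mem_range_of_exists_le_of_exists_ge hf ⟨t, by linarith⟩ ⟨0, h0.le⟩
    exact h u hu

/-- Angle function of a `C¹` curve in the circle. -/
theorem exists_angle (x y x' y' : ℝ → ℝ) (hx : ∀ t, HasDerivAt x (x' t) t)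
    (hy : ∀ t, HasDerivAt y (y' t) t) (hx'c : Continuous x') (hy'c : Continuous y')
    (hcirc : ∀ t, x t ^ 2 + y t ^ 2 = 1) :
    ∃ φ φ' : ℝ → ℝ, (∀ t, HasDerivAt φ (φ' t) t) ∧ Continuous φ' ∧ (∀ t, x t = Real.cos (φ t)) ∧
      (∀ t, y t = Real.sin (φ t)) ∧ (∀ t, x' t = -(y t * φ' t)) ∧ ∀ t, y' t = x t * φ' t := by
  have hxc : Continuous x := continuous_iff_continuousAt.2 fun t => (hx t).continuousAt
  have hyc : Continuous y := continuous_iff_continuousAt.2 fun t => (hy t).continuousAt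
  obtain ⟨φ0, hφ0x, hφ0y⟩ : ∃ φ0 : ℝ, x 0 = Real.cos φ0 ∧ y 0 = Real.sin φ0 := by
    have h1 : ‖(⟨x 0, y 0⟩ : ℂ)‖ = 1 := by
      rw [Complex.norm_def, Complex.normSq_mk, ← sq, ← sq, hcirc 0, Real.sqrt_one]
    have hne : (⟨x 0, y 0⟩ : ℂ) ≠ 0 := by
      intro h
      rw [h, norm_zero] at h1
      exact zero_ne_one h1
    refine ⟨Complex.arg ⟨x 0, y 0⟩, ?_, ?_⟩
    · rw [Complex.cos_arg hne, h1, div_one]
    · rw [Complex.sin_arg, h1, div_one]
  have hort : ∀ t, x t * x' t + y t * y' t = 0 := by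
    intro t
    have h1 : HasDerivAt (fun t => x t ^ 2 + y t ^ 2) (2 * x t * x' t + 2 * y t * y' t) t := by
      have := ((hx t).pow 2).add ((hy t).pow 2)
      refine HasDerivAt.congr_deriv this ?_
      simp
    have h2 : HasDerivAt (fun t => x t ^ 2 + y t ^ 2) 0 t := by
      have : (fun t => x t ^ 2 + y t ^ 2) = fun _ => (1 : ℝ) := funext hcirc
      rw [this]
      exact hasDerivAt_const _ _
    have := h1.unique h2
    linarith
  set φ' : ℝ → ℝ := fun t => x t * y' t - y t * x' t with hφ'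
  have hφ'c : Continuous φ' := by fun_prop
  have hx' : ∀ t, x' t = -(y t * φ' t) := by
    intro t
    have h1 := hort t
    have h2 := hcirc t
    simp only [hφ']
    linear_combination (-(x' t)) * h2 + x t * h1
  have hy' : ∀ t, y' t = x t * φ' t := by
    intro t
    have h1 := hort t
    have h2 := hcirc t
    simp only [hφ']
    linear_combination (-(y' t)) * h2 + y t * h1
  set φ : ℝ → ℝ := fun t => φ0 + ∫ s in (0 : ℝ)..t, φ' s with hφ
  have hφd : ∀ t, HasDerivAt φ (φ' t) t := fun t =>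
    (intervalIntegral.integral_hasDerivAt_right (hφ'c.intervalIntegrable _ _)
      (hφ'c.stronglyMeasurableAtFilter _ _) hφ'c.continuousAt).const_add _
  have hconst : ∀ (F : ℝ → ℝ), (∀ t, HasDerivAt F 0 t) → ∀ t, F t = F 0 := by
    intro F hF t
    exact is_const_of_deriv_eq_zero (fun t => (hF t).differentiableAt) (fun t => (hF t).deriv) t 0
  have hA : ∀ t, x t * Real.cos (φ t) + y t * Real.sin (φ t) = 1 := by
    intro t
    have := hconst (fun t => x t * Real.cos (φ t) + y t * Real.sin (φ t)) (by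
      intro t
      have h1 := ((hx t).mul (hφd t).cos).add ((hy t).mul (hφd t).sin)
      refine h1.congr_deriv ?_
      rw [hx' t, hy' t]
      ring) t
    rw [this]
    simp only [hφ, intervalIntegral.integral_same, add_zero]
    rw [hφ0x, hφ0y]
    have := Real.sin_sq_add_cos_sq φ0
    nlinarith
  have hBq : ∀ t, y t * Real.cos (φ t) - x t * Real.sin (φ t) = 0 := by
    intro t
    have := hconst (fun t => y t * Real.cos (φ t) - x t * Real.sin (φ t)) (by
      intro t
      have h1 := ((hy t).mul (hφd t).cos).sub ((hx t).mul (hφd t).sin)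
      refine h1.congr_deriv ?_
      rw [hx' t, hy' t]
      ring) t
    rw [this]
    simp only [hφ, intervalIntegral.integral_same, add_zero]
    rw [hφ0x, hφ0y]
    ring
  refine ⟨φ, φ', hφd, hφ'c, ?_, ?_, hx', hy'⟩
  · intro t
    have h1 := hA t
    have h2 := hBq t
    have h3 := Real.sin_sq_add_cos_sq (φ t)
    linear_combination (-x t) * h3 + Real.cos (φ t) * h1 - Real.sin (φ t) * h2
  · intro t
    have h1 := hA t
    have h2 := hBq t
    have h3 := Real.sin_sq_add_cos_sq (φ t)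
    linear_combination (-y t) * h3 + Real.sin (φ t) * h1 + Real.cos (φ t) * h2

/-- Structure of the boundary curves. -/
theorem boundary_structure (x y z x' y' z' : ℝ → ℝ) (hx : ∀ t, HasDerivAt x (x' t) t)
    (hy : ∀ t, HasDerivAt y (y' t) t) (hz : ∀ t, HasDerivAt z (z' t) t)
    (hx'c : Continuous x') (hy'c : Continuous y')
    (hxp : ∀ t, x (t + 2 * Real.pi) = x t) (hyp : ∀ t, y (t + 2 * Real.pi) = y t)
    (hzp : ∀ t, z (t + 2 * Real.pi) = z t)
    (hcirc : ∀ t, x t ^ 2 + y t ^ 2 = 1) (himm : ∀ t, x' t = 0 → y' t = 0 → z' t ≠ 0)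
    (Q Q' : ℝ → ℝ) (hQ : ∀ s, HasDerivAt Q (Q' s) s) (hanti : ∀ s, Q (s + 2 * Real.pi) = -Q s)
    (habs : ∀ t s, x t = Real.cos s → y t = Real.sin s → |z t| = |Q s|)
    (hsurj : ∀ s, ∃ t, x t = Real.cos s ∧ y t = Real.sin s ∧ z t = Q s)
    (s0 : ℝ) (hs0 : Q s0 ≠ 0) :
    ∃ φ φ' : ℝ → ℝ, (∀ t, HasDerivAt φ (φ' t) t) ∧ (∀ t, x t = Real.cos (φ t)) ∧
      (∀ t, y t = Real.sin (φ t)) ∧ (∀ t, x' t = -(Real.sin (φ t) * φ' t)) ∧
      (∀ t, y' t = Real.cos (φ t) * φ' t) ∧ (∀ t, |z' t| = |Q' (φ t)| * |φ' t|) ∧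
      ∃ σ : ℝ, (σ = 1 ∨ σ = -1) ∧ (∀ t, 0 < σ * φ' t) ∧
      ∃ w : ℤ, 2 ≤ w ∧ ∀ t, σ * φ (t + 2 * Real.pi) = σ * φ t + 2 * Real.pi * w := by
  have hpi := Real.pi_pos
  obtain ⟨φ, φ', hφ, hφ'c, hxφ, hyφ, hx', hy'⟩ := exists_angle x y x' y' hx hy hx'c hy'c hcirc
  have hφc : Continuous φ := continuous_iff_continuousAt.2 fun t => (hφ t).continuousAt
  have hzabs : ∀ t, |z t| = |Q (φ t)| := fun t => habs t (φ t) (hxφ t) (hyφ t)
  have hz'abs : ∀ t, |z' t| = |Q' (φ t)| * |φ' t| := by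
    intro t
    have h1 : HasDerivAt (fun t => Q (φ t)) (Q' (φ t) * φ' t) t := (hQ (φ t)).comp t (hφ t)
    rw [← abs_mul]
    exact abs_deriv_eq (hz t) h1 hzabs
  have hφ'ne : ∀ t, φ' t ≠ 0 := by
    intro t h0
    have h1 : x' t = 0 := by rw [hx', h0]; ring
    have h2 : y' t = 0 := by rw [hy', h0]; ring
    have h3 := hz'abs t
    rw [h0, abs_zero, mul_zero] at h3
    exact himm t h1 h2 (abs_eq_zero.1 h3)
  obtain ⟨σ, hσ, hσpos⟩ := exists_sign φ' hφ'c hφ'ne
  have hσ2 : σ * σ = 1 := by rcases hσ with h | h <;> rw [h] <;> norm_num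
  have hmono : StrictMono fun t => σ * φ t := by
    apply strictMono_of_deriv_pos
    intro t
    rw [((hφ t).const_mul σ).deriv]
    exact hσpos t
  have hcos : ∀ s t, x s = x t → y s = y t → Real.cos (φ s - φ t) = 1 := by
    intro s t h1 h2
    rw [Real.cos_sub, ← hxφ, ← hxφ, ← hyφ, ← hyφ, h1, h2]
    have := hcirc t
    nlinarith
  have hcos2 : ∀ t, Real.cos (σ * (φ (t + 2 * Real.pi) - φ t)) = 1 := by
    intro t
    have h1 := hcos _ _ (hxp t) (hyp t)
    rcases hσ with h | h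
    · rw [h, one_mul]; exact h1
    · rw [h, neg_one_mul, Real.cos_neg]; exact h1
  obtain ⟨w, hw⟩ := (Real.cos_eq_one_iff _).1 (hcos2 0)
  have hwt : ∀ t, σ * φ (t + 2 * Real.pi) = σ * φ t + 2 * Real.pi * w := by
    intro t
    have : σ * (φ (t + 2 * Real.pi) - φ t) = σ * (φ (0 + 2 * Real.pi) - φ 0) :=
      const_of_cos_one (fun t => σ * (φ (t + 2 * Real.pi) - φ t)) (by fun_prop) hcos2 t 0
    rw [← hw] at this
    linarith
  refine ⟨φ, φ', hφ, hxφ, hyφ, fun t => by rw [hx', hyφ], fun t => by rw [hy', hxφ], hz'abs, σ, hσ,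
    hσpos, w, ?_, hwt⟩
  have hw1 : 1 ≤ w := by
    have h1 : σ * φ 0 < σ * φ (0 + 2 * Real.pi) :=
      hmono (show (0 : ℝ) < 0 + 2 * Real.pi by linarith)
    rw [hwt] at h1
    have h2 : (0 : ℝ) < w := by
      by_contra hcon
      push Not at hcon
      nlinarith
    exact_mod_cast h2
  rcases hw1.eq_or_lt with h1 | h1
  · exfalso
    have hwm : ∀ (m : ℕ) (t : ℝ), σ * φ (t + 2 * Real.pi * m) = σ * φ t + 2 * Real.pi * m := by
      intro m
      induction m with
      | zero => intro t; simp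
      | succ m ih =>
        intro t
        have h2 : t + 2 * Real.pi * ((m + 1 : ℕ) : ℝ) = (t + 2 * Real.pi * m) + 2 * Real.pi := by
          push_cast; ring
        rw [h2, hwt, ih, ← h1]
        push_cast
        ring
    have hzm : ∀ (m : ℕ) (t : ℝ), z (t + 2 * Real.pi * m) = z t := by
      intro m
      induction m with
      | zero => intro t; simp
      | succ m ih =>
        intro t
        have h2 : t + 2 * Real.pi * ((m + 1 : ℕ) : ℝ) = (t + 2 * Real.pi * m) + 2 * Real.pi := by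
          push_cast; ring
        rw [h2, hzp, ih]
    have key : ∀ t1 t2, x t1 = x t2 → y t1 = y t2 → z t1 = z t2 := by
      intro t1 t2 h2 h3
      wlog hle : σ * φ t2 ≤ σ * φ t1 generalizing t1 t2
      · exact (this t2 t1 h2.symm h3.symm (not_le.1 hle).le).symm
      have h4 : Real.cos (σ * φ t1 - σ * φ t2) = 1 := by
        rw [← mul_sub]
        have h5 := hcos _ _ h2 h3
        rcases hσ with h | h
        · rw [h, one_mul]; exact h5
        · rw [h, neg_one_mul, Real.cos_neg]; exact h5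
      obtain ⟨n, hn⟩ := (Real.cos_eq_one_iff _).1 h4
      have hn0 : 0 ≤ n := by
        have h6 : (0 : ℝ) ≤ n := by
          by_contra hcon
          push Not at hcon
          nlinarith
        exact_mod_cast h6
      obtain ⟨m, rfl⟩ := Int.eq_ofNat_of_zero_le hn0
      have h7 : σ * φ t1 = σ * φ (t2 + 2 * Real.pi * m) := by
        rw [hwm]
        push_cast at hn
        linarith
      have h8 := hmono.injective h7
      rw [h8, hzm]
    obtain ⟨t1, h11, h12, h13⟩ := hsurj s0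
    obtain ⟨t2, h21, h22, h23⟩ := hsurj (s0 + 2 * Real.pi)
    rw [Real.cos_add_two_pi] at h21
    rw [Real.sin_add_two_pi] at h22
    have h9 := key t1 t2 (h11.trans h21.symm) (h12.trans h22.symm)
    rw [h13, h23, hanti] at h9
    exact hs0 (by linarith)
  · omega

end Pool.Agent.V11192.Frames
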