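import Mathlib

/-!
A function on the closed disk without critical points, whose boundary values have all maxima and all minima
absolute, has only one of each (winding number argument for the gradient).
-/

set_option autoImplicit false
open Set Filter Topology Metric

namespace Pool.Agent.V11192.Frames

/-- Continuous angle of a nowhere zero function on the plane. -/
theorem exists_lift (P : ℝ × ℝ → ℂ) (hP : Continuous P) (h0 : ∀ p, P p ≠ 0) :
    ∃ Θ : ℝ × ℝ → ℝ, Continuous Θ ∧ ∀ p, P p = (‖P p‖ : ℂ) * Complex.exp (Θ p * Complex.I) := by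
  have hnorm : ∀ p, ‖P p / (‖P p‖ : ℂ)‖ = 1 := by
    intro p
    rw [norm_div, Complex.norm_real, norm_norm]
    exact div_self (norm_ne_zero_iff.2 (h0 p))
  let U : C(ℝ × ℝ, Circle) :=
    ⟨fun p => ⟨P p / (‖P p‖ : ℂ), mem_sphere_zero_iff_norm.2 (hnorm p)⟩, by
      apply Continuous.subtype_mk
      apply Continuous.div hP
      · exact Complex.continuous_ofReal.comp hP.norm
      · intro p
        exact_mod_cast norm_ne_zero_iff.2 (h0 p)⟩
  obtain ⟨e0, he0⟩ : ∃ e0 : ℝ, Circle.exp e0 = U (0, 0) :=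
    ⟨Complex.arg (U (0, 0)), Circle.exp_arg (U (0, 0))⟩
  obtain ⟨Θ, ⟨_, hΘ⟩, _⟩ :=
    Circle.isCoveringMap_exp.existsUnique_continuousMap_lifts U (0, 0) e0 he0
  refine ⟨Θ, Θ.continuous, fun p => ?_⟩
  have h1 : Circle.exp (Θ p) = U p := congrFun hΘ p
  have h2 : Complex.exp ((Θ p : ℝ) * Complex.I) = P p / (‖P p‖ : ℂ) := by
    have h4 : ((Circle.exp (Θ p) : Circle) : ℂ) = ((U p : Circle) : ℂ) := congrArg _ h1
    rw [Circle.coe_exp] at h4
    exact h4
  rw [h2, mul_div_cancel₀]
  exact_mod_cast norm_ne_zero_iff.2 (h0 p)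

/-- Every closed interval of length at least `2π` contains an odd multiple of `π`. -/
theorem exists_cos_neg_one {a b : ℝ} (h : 2 * Real.pi ≤ b - a) : ∃ c ∈ Icc a b, Real.cos c = -1 := by
  have hpi := Real.pi_pos
  set n : ℤ := ⌈(a - Real.pi) / (2 * Real.pi)⌉ with hn
  refine ⟨Real.pi + n * (2 * Real.pi), ⟨?_, ?_⟩, ?_⟩
  · have h1 : (a - Real.pi) / (2 * Real.pi) ≤ n := Int.le_ceil _
    rw [div_le_iff₀ (by positivity)] at h1
    linarith
  · have h1 : (n : ℝ) < (a - Real.pi) / (2 * Real.pi) + 1 := Int.ceil_lt_add_one _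
    have h2 : (n : ℝ) - 1 < (a - Real.pi) / (2 * Real.pi) := by linarith
    rw [lt_div_iff₀ (by positivity)] at h2
    nlinarith
  · rw [Real.cos_add_int_mul_two_pi, Real.cos_pi]

/-- A continuous function never hitting an odd multiple of `π` oscillates less than `2π`. -/
theorem lt_of_cos_ne (χ : ℝ → ℝ) (hχ : Continuous χ) (h : ∀ t, Real.cos (χ t) ≠ -1) (s t : ℝ) :
    χ s - χ t < 2 * Real.pi := by
  by_contra hcon
  push Not at hcon
  obtain ⟨c, hc, hc1⟩ := exists_cos_neg_one hcon
  have h1 : c ∈ uIcc (χ t) (χ s) := by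
    rw [uIcc_of_le (hc.1.trans hc.2)]; exact hc
  obtain ⟨u, -, hu⟩ := intermediate_value_uIcc (a := t) (b := s) hχ.continuousOn h1
  exact h u (by rw [hu]; exact hc1)

/-- Continuous, values in `2π ℤ`, implies constant. -/
theorem const_of_cos_one {X : Type*} [TopologicalSpace X] [PreconnectedSpace X] (χ : X → ℝ)
    (hχ : Continuous χ) (h : ∀ x, Real.cos (χ x) = 1) (x y : X) : χ x = χ y := by
  by_contra hne
  have hpi := Real.pi_pos
  wlog hlt : χ x < χ y generalizing x y
  · exact this y x (fun h => hne h.symm) (lt_of_le_of_ne (not_lt.1 hlt) (fun h => hne h.symm))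
  obtain ⟨n, hn⟩ := (Real.cos_eq_one_iff _).1 (h x)
  obtain ⟨m, hm⟩ := (Real.cos_eq_one_iff _).1 (h y)
  have hnm : n < m := by
    have : (n : ℝ) * (2 * Real.pi) < m * (2 * Real.pi) := by rw [hn, hm]; exact hlt
    have := lt_of_mul_lt_mul_right this (by positivity)
    exact_mod_cast this
  have hnm' : (n : ℝ) + 1 ≤ m := by exact_mod_cast hnm
  have hmem : χ x + Real.pi ∈ Icc (χ x) (χ y) := by
    constructor
    · linarith
    · rw [← hn, ← hm]; nlinarith
  obtain ⟨u, hu⟩ := mem_range_of_exists_le_of_exists_ge hχ ⟨x, hmem.1⟩ ⟨y, hmem.2⟩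
  have := h u
  rw [hu, Real.cos_add_pi, h x] at this
  norm_num at this

open Complex in
/-- The topological lemma. -/
theorem disc_winding (f : ℂ → ℝ) (hf : ContDiffOn ℝ 1 f (closedBall 0 1))
    (hne : ∀ x ∈ closedBall (0 : ℂ) 1, fderivWithin ℝ f (closedBall 0 1) x ≠ 0)
    (f' : ℝ → ℝ) (hf' : ∀ t, HasDerivAt (fun t : ℝ => f (exp (t * I))) (f' t) t)
    (ψ : ℝ → ℝ) (hψ : Continuous ψ) (w : ℤ) (hw : ∀ t, ψ (t + 2 * Real.pi) = ψ t + 2 * Real.pi * w)
    (hpos : ∀ t, 0 < Real.sin (ψ t) → f' t < 0)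
    (hneg : ∀ t, Real.sin (ψ t) < 0 → 0 < f' t)
    (hmax : ∀ t, Real.cos (ψ t) = 1 → f' t = 0 ∧ ∀ s : ℝ, f (exp (s * I)) ≤ f (exp (t * I)))
    (hmin : ∀ t, Real.cos (ψ t) = -1 → f' t = 0 ∧ ∀ s : ℝ, f (exp (t * I)) ≤ f (exp (s * I))) :
    w ≤ 1 := by
  have hpi := Real.pi_pos
  set B : Set ℂ := closedBall 0 1 with hB
  have hBu : UniqueDiffOn ℝ B := uniqueDiffOn_convex (convex_closedBall _ _)
    (by rw [hB, interior_closedBall _ one_ne_zero]; exact nonempty_ball.2 one_pos)
  have hmem : ∀ t : ℝ, exp (t * I) ∈ B := by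
    intro t
    rw [hB, mem_closedBall_zero_iff, Complex.norm_exp_ofReal_mul_I]
  set L : ℂ → ℂ →L[ℝ] ℝ := fderivWithin ℝ f B with hL
  have hLc : ContinuousOn L B := hf.continuousOn_fderivWithin hBu le_rfl
  have hfd : ∀ x ∈ B, HasFDerivWithinAt f (L x) B x := fun x hx =>
    ((hf x hx).differentiableWithinAt one_ne_zero).hasFDerivWithinAt
  have hLexp : ∀ (x : ℂ) (v : ℂ), L x v = v.re * L x 1 + v.im * L x I := by
    intro x v
    conv_lhs => rw [← Complex.re_add_im v]
    have h1 : ((v.re : ℂ) + (v.im : ℂ) * I) = v.re • (1 : ℂ) + v.im • I := by simp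
    rw [h1, map_add, map_smul, map_smul]
    simp
  set D : ℂ → ℂ := fun x => ((L x 1 : ℝ) : ℂ) + ((L x I : ℝ) : ℂ) * I with hD
  have hDc : ContinuousOn D B := by
    have h1 : ContinuousOn (fun x => L x 1) B := hLc.clm_apply continuousOn_const
    have h2 : ContinuousOn (fun x => L x I) B := hLc.clm_apply continuousOn_const
    exact (Complex.continuous_ofReal.comp_continuousOn h1).add
      ((Complex.continuous_ofReal.comp_continuousOn h2).mul continuousOn_const)
  have hDne : ∀ x ∈ B, D x ≠ 0 := by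
    intro x hx h0
    apply hne x hx
    have hre : L x 1 = 0 := by
      have := congrArg Complex.re h0
      simpa [hD] using this
    have him : L x I = 0 := by
      have := congrArg Complex.im h0
      simpa [hD] using this
    apply ContinuousLinearMap.ext
    intro v
    change L x v = 0
    rw [hLexp, hre, him]
    ring
  -- the function on the plane
  set c : ℝ → ℝ := fun r => max 0 (min r 1) with hc
  have hcc : Continuous c := by fun_prop
  have hc01 : ∀ r, 0 ≤ c r ∧ c r ≤ 1 := fun r =>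
    ⟨le_max_left _ _, max_le zero_le_one (min_le_right _ _)⟩
  have hpt : ∀ p : ℝ × ℝ, (c p.1 : ℂ) * exp (p.2 * I) ∈ B := by
    intro p
    rw [hB, mem_closedBall_zero_iff, norm_mul, Complex.norm_exp_ofReal_mul_I, mul_one,
      Complex.norm_real, Real.norm_of_nonneg (hc01 _).1]
    exact (hc01 _).2
  set F : ℝ × ℝ → ℂ := fun p => D ((c p.1 : ℂ) * exp (p.2 * I)) with hF
  have hFc : Continuous F := by
    apply hDc.comp_continuous _ hpt
    apply Continuous.mul
    · exact Complex.continuous_ofReal.comp (hcc.comp continuous_fst)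
    · exact Complex.continuous_exp.comp
        ((Complex.continuous_ofReal.comp continuous_snd).mul continuous_const)
  have hFne : ∀ p, F p ≠ 0 := fun p => hDne _ (hpt p)
  obtain ⟨Θ, hΘc, hΘ⟩ := exists_lift F hFc hFne
  have hexp2 : ∀ t : ℝ, exp (((t + 2 * Real.pi : ℝ) : ℂ) * I) = exp (t * I) := by
    intro t
    push_cast
    rw [add_mul, Complex.exp_add, Complex.exp_two_pi_mul_I, mul_one]
  have hexpeq : ∀ (p q : ℝ × ℝ), F p = F q → Real.cos (Θ p - Θ q) = 1 := by
    intro p q hpq
    have h1 := hΘ p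
    have h2 := hΘ q
    have hn : (‖F p‖ : ℂ) ≠ 0 := by exact_mod_cast norm_ne_zero_iff.2 (hFne p)
    rw [← hpq] at h2
    have h3 : exp (Θ p * I) = exp (Θ q * I) := mul_left_cancel₀ hn (h1.symm.trans h2)
    have h4 : exp (((Θ p - Θ q : ℝ) : ℂ) * I) = 1 := by
      push_cast
      rw [sub_mul, Complex.exp_sub, h3, div_self (Complex.exp_ne_zero _)]
    have h5 := congrArg Complex.re h4
    rwa [Complex.exp_ofReal_mul_I_re, Complex.one_re] at h5
  have hper : ∀ t, Θ (1, t + 2 * Real.pi) = Θ (1, t) := by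
    intro t
    have hconst := const_of_cos_one (X := ℝ × ℝ)
      (fun p => Θ (p.1, p.2 + 2 * Real.pi) - Θ (p.1, p.2)) (by fun_prop) (by
        intro p
        apply hexpeq
        simp only [hF]
        rw [hexp2]) (1, t) (0, t)
    have hconst0 := const_of_cos_one (X := ℝ)
      (fun s => Θ (0, s) - Θ (0, 0)) (by fun_prop) (by
        intro s
        apply hexpeq
        simp only [hF, hc]
        simp) (t + 2 * Real.pi) t
    simp only at hconst hconst0
    linarith
  -- radial and tangential derivative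
  have hF1 : ∀ t : ℝ, F (1, t) = D (exp (t * I)) := by
    intro t
    simp [hF, hc]
  have hcomp : ∀ t : ℝ, L (exp (t * I)) 1 = ‖F (1, t)‖ * Real.cos (Θ (1, t)) ∧
      L (exp (t * I)) I = ‖F (1, t)‖ * Real.sin (Θ (1, t)) := by
    intro t
    have h1 := hΘ (1, t)
    have hre := congrArg Complex.re h1
    have him := congrArg Complex.im h1
    rw [Complex.re_ofReal_mul, Complex.exp_ofReal_mul_I_re] at hre
    rw [Complex.im_ofReal_mul, Complex.exp_ofReal_mul_I_im] at him
    rw [← hre, ← him, hF1]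
    simp [hD]
  have hrad : ∀ t : ℝ, L (exp (t * I)) (exp (t * I)) = ‖F (1, t)‖ * Real.cos (Θ (1, t) - t) := by
    intro t
    rw [hLexp, Complex.exp_ofReal_mul_I_re, Complex.exp_ofReal_mul_I_im, (hcomp t).1, (hcomp t).2,
      Real.cos_sub]
    ring
  have htan : ∀ t : ℝ, L (exp (t * I)) (exp (t * I) * I) = ‖F (1, t)‖ * Real.sin (Θ (1, t) - t) := by
    intro t
    rw [hLexp]
    simp only [mul_re, mul_im, I_re, I_im, mul_zero, mul_one, zero_sub, add_zero,
      Complex.exp_ofReal_mul_I_re, Complex.exp_ofReal_mul_I_im]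
    rw [(hcomp t).1, (hcomp t).2, Real.sin_sub]
    ring
  have hft : ∀ t : ℝ, f' t = ‖F (1, t)‖ * Real.sin (Θ (1, t) - t) := by
    intro t
    have hcurve : HasDerivAt (fun t : ℝ => exp (t * I)) (exp (t * I) * I) t := by
      have h1 : HasDerivAt (fun t : ℝ => ((t : ℂ)) * I) I t := by
        simpa using (Complex.ofRealCLM.hasDerivAt (x := t)).mul_const I
      exact h1.cexp
    have h2 : HasDerivAt (f ∘ fun t : ℝ => exp (t * I)) (L (exp (t * I)) (exp (t * I) * I)) t :=
      (hfd _ (hmem t)).comp_hasDerivAt t hcurve (Eventually.of_forall hmem)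
    rw [← htan]
    exact (hf' t).unique h2
  have hNpos : ∀ t : ℝ, 0 < ‖F (1, t)‖ := fun t => norm_pos_iff.2 (hFne _)
  -- extrema on the disk are on the circle
  have hcirc : ∀ x ∈ B, x ∉ interior B → ∃ s : ℝ, x = exp (s * I) := by
    intro x hx hx'
    rw [hB, interior_closedBall _ one_ne_zero, mem_ball_zero_iff] at hx'
    rw [hB, mem_closedBall_zero_iff] at hx
    have hn : ‖x‖ = 1 := le_antisymm hx (not_lt.1 hx')
    refine ⟨Complex.arg x, ?_⟩
    have := Complex.norm_mul_exp_arg_mul_I x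
    rw [hn, Complex.ofReal_one, one_mul] at this
    exact this.symm
  have hint : ∀ x ∈ interior B, ¬ IsLocalExtr f x := by
    intro x hx hloc
    apply hne x (interior_subset hx)
    have h1 : fderivWithin ℝ f B x = fderiv ℝ f x :=
      fderivWithin_of_mem_nhds (mem_interior_iff_mem_nhds.1 hx)
    change fderivWithin ℝ f B x = 0
    rw [h1]
    exact hloc.fderiv_eq_zero
  have hBcomp : IsCompact B := isCompact_closedBall _ _
  have hBne : B.Nonempty := ⟨_, hmem 0⟩
  have hseg : ∀ t : ℝ, -exp (t * I) ∈ posTangentConeAt B (exp (t * I)) := by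
    intro t
    have h0 : (0 : ℂ) ∈ B := by rw [hB]; exact mem_closedBall_self zero_le_one
    apply mem_posTangentConeAt_of_segment_subset
    rw [add_neg_cancel]
    exact (convex_closedBall (0 : ℂ) 1).segment_subset (hmem t) h0
  have hradmax : ∀ t : ℝ, (∀ s : ℝ, f (exp (s * I)) ≤ f (exp (t * I))) →
      0 ≤ Real.cos (Θ (1, t) - t) := by
    intro t ht
    obtain ⟨x, hx, hxm⟩ := hBcomp.exists_isMaxOn hBne hf.continuousOn
    have hxi : x ∉ interior B := fun hxi =>
      hint x hxi (IsMaxFilter.isExtr (hxm.isLocalMax (mem_interior_iff_mem_nhds.1 hxi)))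
    obtain ⟨s, rfl⟩ := hcirc x hx hxi
    have hM : IsMaxOn f B (exp (t * I)) := fun y hy => (hxm hy).trans (ht s)
    have h1 := hM.localize.hasFDerivWithinAt_nonpos (hfd _ (hmem t)) (hseg t)
    rw [map_neg, hrad] at h1
    by_contra hcon
    push Not at hcon
    nlinarith [mul_pos_of_neg_of_neg hcon (neg_neg_of_pos (hNpos t))]
  have hradmin : ∀ t : ℝ, (∀ s : ℝ, f (exp (t * I)) ≤ f (exp (s * I))) →
      Real.cos (Θ (1, t) - t) ≤ 0 := by
    intro t ht
    obtain ⟨x, hx, hxm⟩ := hBcomp.exists_isMinOn hBne hf.continuousOn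
    have hxi : x ∉ interior B := fun hxi =>
      hint x hxi (IsMinFilter.isExtr (hxm.isLocalMin (mem_interior_iff_mem_nhds.1 hxi)))
    obtain ⟨s, rfl⟩ := hcirc x hx hxi
    have hM : IsMinOn f B (exp (t * I)) := fun y hy => (ht s).trans (hxm hy)
    have h1 := hM.localize.hasFDerivWithinAt_nonneg (hfd _ (hmem t)) (hseg t)
    rw [map_neg, hrad] at h1
    by_contra hcon
    push Not at hcon
    nlinarith [mul_pos hcon (hNpos t)]
  -- the combined angle never is an odd multiple of pi
  set χ : ℝ → ℝ := fun t => Θ (1, t) - t + ψ t with hχ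
  have hχc : Continuous χ := by
    have : Continuous fun t : ℝ => Θ (1, t) := hΘc.comp (by fun_prop)
    exact (this.sub continuous_id).add hψ
  have hχne : ∀ t, Real.cos (χ t) ≠ -1 := by
    intro t hcos
    have hsin : Real.sin (χ t) = 0 := by
      have := Real.sin_sq_add_cos_sq (χ t)
      rw [hcos] at this
      nlinarith
    have hs : Real.sin (Θ (1, t) - t) = Real.sin (ψ t) := by
      have : Θ (1, t) - t = χ t - ψ t := by simp only [hχ]; ring
      rw [this, Real.sin_sub, hcos, hsin]; ring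
    have hcs : Real.cos (Θ (1, t) - t) = -Real.cos (ψ t) := by
      have : Θ (1, t) - t = χ t - ψ t := by simp only [hχ]; ring
      rw [this, Real.cos_sub, hcos, hsin]; ring
    have hf1 := hft t
    rw [hs] at hf1
    have hN := hNpos t
    rcases lt_trichotomy (Real.sin (ψ t)) 0 with h | h | h
    · have := hneg t h
      nlinarith
    · have h2 := Real.sin_sq_add_cos_sq (ψ t)
      rw [h] at h2
      have h3 : (Real.cos (ψ t) - 1) * (Real.cos (ψ t) + 1) = 0 := by nlinarith
      rcases mul_eq_zero.1 h3 with h4 | h4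
      · have h5 : Real.cos (ψ t) = 1 := by linarith
        have := hradmax t (hmax t h5).2
        rw [hcs, h5] at this
        norm_num at this
      · have h5 : Real.cos (ψ t) = -1 := by linarith
        have := hradmin t (hmin t h5).2
        rw [hcs, h5] at this
        norm_num at this
    · have := hpos t h
      nlinarith
  have hfin := lt_of_cos_ne χ hχc hχne (0 + 2 * Real.pi) 0
  simp only [hχ] at hfin
  rw [hper, hw] at hfin
  by_contra hcon
  push Not at hcon
  have h2 : (2 : ℝ) ≤ w := by exact_mod_cast hcon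
  nlinarith

end Pool.Agent.V11192.Frames
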