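import Pool.Agent.V11192.Frames.Main

/-!
Vector form.
-/

set_option autoImplicit false
open Set Filter Topology Metric
open scoped ContDiff RealInnerProductSpace

namespace Pool.Agent.V11192.Frames

variable {V : Type*} [NormedAddCommGroup V] [InnerProductSpace ℝ V]

/-- The frame. -/
theorem exists_basis [FiniteDimensional ℝ V] (hV : Module.finrank ℝ V = 3) (k : ℕ) (ξ : Fin k → V)
    (hξ : ∀ i, ξ i ≠ 0) :
    ∃ b : OrthonormalBasis (Fin 3) ℝ V, ∀ i, ⟪b 0, ξ i⟫ ≠ 0 ∨ ⟪b 1, ξ i⟫ ≠ 0 := by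
  classical
  obtain ⟨e, he0, he⟩ : ∃ e : V, e ≠ 0 ∧ ∀ i, e ∉ (ℝ ∙ ξ i) := by
    by_contra hcon
    push Not at hcon
    set s : Finset (Submodule ℝ V) := insert ⊥ (Finset.univ.image fun i => ℝ ∙ ξ i) with hs
    have htop : (⊤ : Submodule ℝ V) ∉ s := by
      rw [hs, Finset.mem_insert, Finset.mem_image]
      rintro (h | ⟨i, -, h⟩)
      · have h1 := finrank_top ℝ V
        rw [h, finrank_bot, hV] at h1
        omega
      · have h1 := finrank_top ℝ V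
        rw [← h, finrank_span_singleton (hξ i), hV] at h1
        omega
    apply Subspace.biUnion_ne_univ_of_top_notMem htop
    rw [eq_univ_iff_forall]
    intro e
    rw [mem_iUnion₂]
    by_cases he : e = 0
    · exact ⟨⊥, Finset.mem_insert_self _ _, by rw [he]; exact Submodule.zero_mem _⟩
    · obtain ⟨i, hi⟩ := hcon e he
      exact ⟨_, Finset.mem_insert_of_mem (Finset.mem_image_of_mem _ (Finset.mem_univ i)), hi⟩
  set u : V := (‖e‖⁻¹ : ℝ) • e with hu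
  have hu1 : ‖u‖ = 1 := by
    rw [hu, norm_smul, norm_inv, norm_norm, inv_mul_cancel₀ (norm_ne_zero_iff.2 he0)]
  have hort : Orthonormal ℝ (({2} : Set (Fin 3)).domRestrict (fun _ : Fin 3 => u)) := by
    constructor
    · intro i; exact hu1
    · intro i j hij
      exact absurd (Subsingleton.elim i j) hij
  obtain ⟨b, hb⟩ := hort.exists_orthonormalBasis_extension_of_card_eq
    (by rw [hV, Fintype.card_fin])
  refine ⟨b, fun i => ?_⟩
  by_contra hcon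
  push Not at hcon
  have hb2 : b 2 = u := hb 2 rfl
  have h1 := b.sum_repr' (ξ i)
  rw [Fin.sum_univ_three, hcon.1, hcon.2, zero_smul, zero_smul, zero_add, zero_add, hb2] at h1
  have hc : ⟪u, ξ i⟫ ≠ 0 := by
    intro h0
    rw [h0, zero_smul] at h1
    exact hξ i h1.symm
  apply he i
  rw [Submodule.mem_span_singleton]
  refine ⟨‖e‖ * ⟪u, ξ i⟫⁻¹, ?_⟩
  have h2 : ξ i = ⟪u, ξ i⟫ • u := h1.symm
  calc (‖e‖ * ⟪u, ξ i⟫⁻¹) • ξ i = (‖e‖ * ⟪u, ξ i⟫⁻¹) • (⟪u, ξ i⟫ • u) := by rw [← h2]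
    _ = (‖e‖ * (⟪u, ξ i⟫⁻¹ * ⟪u, ξ i⟫)) • u := by rw [smul_smul, mul_assoc]
    _ = ‖e‖ • u := by rw [inv_mul_cancel₀ hc, mul_one]
    _ = e := by rw [hu, smul_smul, mul_inv_cancel₀ (norm_ne_zero_iff.2 he0), one_smul]

/-- The curve. -/
noncomputable def cv (b : OrthonormalBasis (Fin 3) ℝ V) (Q : ℝ → ℝ) (s : ℝ) : V :=
  Real.cos s • b 0 + Real.sin s • b 1 + Q s • b 2

theorem cv_inner (b : OrthonormalBasis (Fin 3) ℝ V) (Q : ℝ → ℝ) (s : ℝ) :
    ⟪b 0, cv b Q s⟫ = Real.cos s ∧ ⟪b 1, cv b Q s⟫ = Real.sin s ∧ ⟪b 2, cv b Q s⟫ = Q s := by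
  have h := b.orthonormal
  have h00 : ⟪b 0, b 0⟫ = (1 : ℝ) := by rw [real_inner_self_eq_norm_sq, h.1 0]; norm_num
  have h11 : ⟪b 1, b 1⟫ = (1 : ℝ) := by rw [real_inner_self_eq_norm_sq, h.1 1]; norm_num
  have h22 : ⟪b 2, b 2⟫ = (1 : ℝ) := by rw [real_inner_self_eq_norm_sq, h.1 2]; norm_num
  have h01 : ⟪b 0, b 1⟫ = (0 : ℝ) := h.2 (by decide)
  have h02 : ⟪b 0, b 2⟫ = (0 : ℝ) := h.2 (by decide)
  have h10 : ⟪b 1, b 0⟫ = (0 : ℝ) := h.2 (by decide)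
  have h12 : ⟪b 1, b 2⟫ = (0 : ℝ) := h.2 (by decide)
  have h20 : ⟪b 2, b 0⟫ = (0 : ℝ) := h.2 (by decide)
  have h21 : ⟪b 2, b 1⟫ = (0 : ℝ) := h.2 (by decide)
  simp only [cv, inner_add_right, real_inner_smul_right, h00, h11, h22, h01, h02, h10, h12, h20, h21]
  refine ⟨by ring, by ring, by ring⟩

/-- Vector form of the theorem on the complex disk. -/
theorem main_vec (b : OrthonormalBasis (Fin 3) ℝ V) (Q : ℝ → ℝ) (hQ : ContDiff ℝ ∞ Q)
    (hanti : ∀ s, Q (s + 2 * Real.pi) = -Q s) (hQne : ∃ s, Q s ≠ 0)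
    (K : ℂ → V) (hK : ContDiffOn ℝ ∞ K (closedBall 0 1))
    (himm : ∀ x ∈ closedBall (0 : ℂ) 1, Function.Injective (fderivWithin ℝ K (closedBall 0 1) x))
    (hbd : K '' sphere 0 1 = range (cv b Q)) (ξ : V) (hξ : ⟪b 0, ξ⟫ ≠ 0 ∨ ⟪b 1, ξ⟫ ≠ 0)
    (hQ1 : ∀ s, aa ⟪b 0, ξ⟫ ⟪b 1, ξ⟫ s = 0 → Q s = 0 ∧ deriv Q s = 0)
    (hQ2 : ∀ s, aa ⟪b 0, ξ⟫ ⟪b 1, ξ⟫ s ≠ 0 →
      |⟪b 2, ξ⟫ * deriv Q s| < |aa ⟪b 0, ξ⟫ ⟪b 1, ξ⟫ s|) :
    ∃ x ∈ closedBall (0 : ℂ) 1, ∀ v, ⟪fderivWithin ℝ K (closedBall 0 1) x v, ξ⟫ = 0 := by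
  have hBu : UniqueDiffOn ℝ (closedBall (0 : ℂ) 1) := uniqueDiffOn_convex (convex_closedBall _ _)
    (by rw [interior_closedBall _ one_ne_zero]; exact nonempty_ball.2 one_pos)
  have hKd : ∀ x ∈ closedBall (0 : ℂ) 1,
      HasFDerivWithinAt K (fderivWithin ℝ K (closedBall 0 1) x) (closedBall 0 1) x := fun x hx =>
    ((hK x hx).differentiableWithinAt (by simp)).hasFDerivWithinAt
  have hin : ∀ (u : V) (x : ℂ), x ∈ closedBall (0 : ℂ) 1 →
      HasFDerivWithinAt (fun z => ⟪u, K z⟫)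
        ((innerSL ℝ u).comp (fderivWithin ℝ K (closedBall 0 1) x)) (closedBall 0 1) x := by
    intro u x hx
    exact (innerSL ℝ u).hasFDerivAt.comp_hasFDerivWithinAt x (hKd x hx)
  have hinf : ∀ (u : V) (x : ℂ), x ∈ closedBall (0 : ℂ) 1 → ∀ v,
      fderivWithin ℝ (fun z => ⟪u, K z⟫) (closedBall 0 1) x v =
        ⟪u, fderivWithin ℝ K (closedBall 0 1) x v⟫ := by
    intro u x hx v
    rw [(hin u x hx).fderivWithin (hBu x hx)]
    rfl
  have hcd : ∀ u : V, ContDiffOn ℝ 1 (fun z => ⟪u, K z⟫) (closedBall 0 1) := by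
    intro u
    exact ((innerSL ℝ u).contDiff.comp_contDiffOn hK).of_le (by simp)
  have hsph : ∀ t : ℝ, Complex.exp (t * Complex.I) ∈ sphere (0 : ℂ) 1 := by
    intro t
    rw [mem_sphere_zero_iff_norm, Complex.norm_exp_ofReal_mul_I]
  have hexp : ∀ v : V, v = ⟪b 0, v⟫ • b 0 + ⟪b 1, v⟫ • b 1 + ⟪b 2, v⟫ • b 2 := by
    intro v
    have := b.sum_repr' v
    rw [Fin.sum_univ_three] at this
    exact this.symm
  obtain ⟨x, hx, hx0⟩ := main_coord (fun z => ⟪b 0, K z⟫) (fun z => ⟪b 1, K z⟫)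
    (fun z => ⟪b 2, K z⟫) (hcd _) (hcd _) (hcd _)
    (by
      intro x hx v hv h0 h1 h2
      rw [hinf _ x hx] at h0 h1 h2
      have h3 := hexp (fderivWithin ℝ K (closedBall 0 1) x v)
      rw [h0, h1, h2, zero_smul, zero_smul, zero_smul, add_zero, add_zero] at h3
      exact hv (himm x hx (by rw [h3, map_zero])))
    Q hQ hanti hQne
    (by
      intro t
      have h1 : K (Complex.exp (t * Complex.I)) ∈ range (cv b Q) := by
        rw [← hbd]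
        exact mem_image_of_mem _ (hsph t)
      obtain ⟨s, hs⟩ := h1
      refine ⟨s, ?_, ?_, ?_⟩
      · simp only [← hs]; exact (cv_inner b Q s).1
      · simp only [← hs]; exact (cv_inner b Q s).2.1
      · simp only [← hs]; exact (cv_inner b Q s).2.2)
    (by
      intro s
      have h1 : cv b Q s ∈ K '' sphere 0 1 := by
        rw [hbd]
        exact mem_range_self s
      obtain ⟨z, hz, hzs⟩ := h1
      rw [mem_sphere_zero_iff_norm] at hz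
      have h2 : Complex.exp (Complex.arg z * Complex.I) = z := by
        have := Complex.norm_mul_exp_arg_mul_I z
        rwa [hz, Complex.ofReal_one, one_mul] at this
      refine ⟨Complex.arg z, ?_, ?_, ?_⟩
      · simp only [h2, hzs]; exact (cv_inner b Q s).1
      · simp only [h2, hzs]; exact (cv_inner b Q s).2.1
      · simp only [h2, hzs]; exact (cv_inner b Q s).2.2)
    ⟪b 0, ξ⟫ ⟪b 1, ξ⟫ ⟪b 2, ξ⟫ hξ hQ1 hQ2
  refine ⟨x, hx, fun v => ?_⟩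
  have hfun : (fun z => ⟪b 0, ξ⟫ * ⟪b 0, K z⟫ + ⟪b 1, ξ⟫ * ⟪b 1, K z⟫ + ⟪b 2, ξ⟫ * ⟪b 2, K z⟫) =
      fun z => ⟪ξ, K z⟫ := by
    funext z
    conv_rhs => rw [hexp ξ]
    simp only [inner_add_left, real_inner_smul_left]
  rw [hfun] at hx0
  have h1 := hinf ξ x hx v
  rw [hx0] at h1
  rw [real_inner_comm, ← h1]
  rfl

theorem cv_contDiff (b : OrthonormalBasis (Fin 3) ℝ V) (Q : ℝ → ℝ) (hQ : ContDiff ℝ ∞ Q) :
    ContDiff ℝ ∞ (cv b Q) := by
  unfold cv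
  exact ((Real.contDiff_cos.smul contDiff_const).add (Real.contDiff_sin.smul contDiff_const)).add
    (hQ.smul contDiff_const)

theorem cv_deriv_ne (b : OrthonormalBasis (Fin 3) ℝ V) (Q : ℝ → ℝ) (hQ : ContDiff ℝ ∞ Q) (s : ℝ) :
    deriv (cv b Q) s ≠ 0 := by
  intro h0
  have hd : HasDerivAt (cv b Q) (deriv (cv b Q) s) s :=
    ((cv_contDiff b Q hQ).differentiable (by simp) s).hasDerivAt
  rw [h0] at hd
  have h1 : HasDerivAt (fun s => ⟪b 0, cv b Q s⟫) (0 : ℝ) s := by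
    have := (innerSL ℝ (b 0)).hasFDerivAt.comp_hasDerivAt s hd
    exact HasDerivAt.congr_deriv this (ContinuousLinearMap.map_zero _)
  have h2 : HasDerivAt (fun s => ⟪b 1, cv b Q s⟫) (0 : ℝ) s := by
    have := (innerSL ℝ (b 1)).hasFDerivAt.comp_hasDerivAt s hd
    exact HasDerivAt.congr_deriv this (ContinuousLinearMap.map_zero _)
  have h3 : (fun s => ⟪b 0, cv b Q s⟫) = Real.cos := funext fun s => (cv_inner b Q s).1
  have h4 : (fun s => ⟪b 1, cv b Q s⟫) = Real.sin := funext fun s => (cv_inner b Q s).2.1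
  rw [h3] at h1
  rw [h4] at h2
  have h5 := h1.unique (Real.hasDerivAt_cos s)
  have h6 := h2.unique (Real.hasDerivAt_sin s)
  have h7 := Real.sin_sq_add_cos_sq s
  have h8 : Real.sin s = 0 := by linarith
  rw [h8, ← h6] at h7
  norm_num at h7

end Pool.Agent.V11192.Frames
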