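import Pool.Agent.V11192.Frames.Profile

/-!
The main argument in coordinates.
-/

set_option autoImplicit false
open Set Filter Topology Metric
open scoped ContDiff RealInnerProductSpace

namespace Pool.Agent.V11192.Frames

theorem aa_polar (α β : ℝ) (h : α ≠ 0 ∨ β ≠ 0) : ∃ A s0 : ℝ, 0 < A ∧
    (∀ s, α * Real.cos s + β * Real.sin s = A * Real.cos (s - s0)) ∧
    ∀ s, aa α β s = -(A * Real.sin (s - s0)) := by
  have hne : (⟨α, β⟩ : ℂ) ≠ 0 := by
    intro h0
    have h1 := congrArg Complex.re h0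
    have h2 := congrArg Complex.im h0
    simp at h1 h2
    rcases h with h | h
    · exact h h1
    · exact h h2
  have hA : 0 < ‖(⟨α, β⟩ : ℂ)‖ := norm_pos_iff.2 hne
  have h1 : α = ‖(⟨α, β⟩ : ℂ)‖ * Real.cos (Complex.arg ⟨α, β⟩) := by
    rw [Complex.cos_arg hne]; field_simp
  have h2 : β = ‖(⟨α, β⟩ : ℂ)‖ * Real.sin (Complex.arg ⟨α, β⟩) := by
    rw [Complex.sin_arg]; field_simp
  refine ⟨_, Complex.arg ⟨α, β⟩, hA, fun s => ?_, fun s => ?_⟩
  · rw [Real.cos_sub]
    linear_combination Real.cos s * h1 + Real.sin s * h2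
  · rw [Real.sin_sub, aa]
    linear_combination (-Real.sin s) * h1 + Real.cos s * h2

open Complex in
/-- Coordinates form of the theorem. -/
theorem main_coord (X Y Z : ℂ → ℝ) (hX : ContDiffOn ℝ 1 X (closedBall 0 1))
    (hY : ContDiffOn ℝ 1 Y (closedBall 0 1)) (hZ : ContDiffOn ℝ 1 Z (closedBall 0 1))
    (himm : ∀ x ∈ closedBall (0 : ℂ) 1, ∀ v : ℂ, v ≠ 0 →
      fderivWithin ℝ X (closedBall 0 1) x v = 0 → fderivWithin ℝ Y (closedBall 0 1) x v = 0 →
      fderivWithin ℝ Z (closedBall 0 1) x v ≠ 0)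
    (Q : ℝ → ℝ) (hQ : ContDiff ℝ ∞ Q) (hanti : ∀ s, Q (s + 2 * Real.pi) = -Q s)
    (hQne : ∃ s, Q s ≠ 0)
    (hsub : ∀ t : ℝ, ∃ s : ℝ, X (exp (t * I)) = Real.cos s ∧ Y (exp (t * I)) = Real.sin s ∧
      Z (exp (t * I)) = Q s)
    (hsup : ∀ s : ℝ, ∃ t : ℝ, X (exp (t * I)) = Real.cos s ∧ Y (exp (t * I)) = Real.sin s ∧
      Z (exp (t * I)) = Q s)
    (α β γ : ℝ) (h : α ≠ 0 ∨ β ≠ 0)
    (hQ1 : ∀ s, aa α β s = 0 → Q s = 0 ∧ deriv Q s = 0)
    (hQ2 : ∀ s, aa α β s ≠ 0 → |γ * deriv Q s| < |aa α β s|) :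
    ∃ x ∈ closedBall (0 : ℂ) 1,
      fderivWithin ℝ (fun z => α * X z + β * Y z + γ * Z z) (closedBall 0 1) x = 0 := by
  have hpi := Real.pi_pos
  by_contra hcon
  push Not at hcon
  have hQd : ∀ s, HasDerivAt Q (deriv Q s) s := fun s =>
    (hQ.differentiable (by simp) s).hasDerivAt
  have hBu : UniqueDiffOn ℝ (closedBall (0 : ℂ) 1) := uniqueDiffOn_convex (convex_closedBall _ _)
    (by rw [interior_closedBall _ one_ne_zero]; exact nonempty_ball.2 one_pos)
  have hmem : ∀ t : ℝ, exp (t * I) ∈ closedBall (0 : ℂ) 1 := by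
    intro t
    rw [mem_closedBall_zero_iff, Complex.norm_exp_ofReal_mul_I]
  have hcurve : ∀ t : ℝ, HasDerivAt (fun t : ℝ => exp (t * I)) (exp (t * I) * I) t := by
    intro t
    have h1 : HasDerivAt (fun t : ℝ => ((t : ℂ)) * I) I t := by
      simpa using (Complex.ofRealCLM.hasDerivAt (x := t)).mul_const I
    exact h1.cexp
  have hexp2 : ∀ t : ℝ, exp (((t + 2 * Real.pi : ℝ) : ℂ) * I) = exp (t * I) := by
    intro t
    push_cast
    rw [add_mul, Complex.exp_add, Complex.exp_two_pi_mul_I, mul_one]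
  have hchain : ∀ (W : ℂ → ℝ), ContDiffOn ℝ 1 W (closedBall 0 1) → ∀ t : ℝ,
      HasDerivAt (fun t : ℝ => W (exp (t * I)))
        (fderivWithin ℝ W (closedBall 0 1) (exp (t * I)) (exp (t * I) * I)) t := by
    intro W hW t
    exact ((((hW _ (hmem t)).differentiableWithinAt one_ne_zero).hasFDerivWithinAt)).comp_hasDerivAt
      t (hcurve t) (Eventually.of_forall hmem)
  have hchainc : ∀ (W : ℂ → ℝ), ContDiffOn ℝ 1 W (closedBall 0 1) →
      Continuous fun t : ℝ =>
        fderivWithin ℝ W (closedBall 0 1) (exp (t * I)) (exp (t * I) * I) := by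
    intro W hW
    have h1 : Continuous fun t : ℝ => fderivWithin ℝ W (closedBall 0 1) (exp (t * I)) :=
      (hW.continuousOn_fderivWithin hBu le_rfl).comp_continuous (by fun_prop) hmem
    exact h1.clm_apply (by fun_prop)
  obtain ⟨s1, hs1⟩ := hQne
  have hzabs : ∀ s s' : ℝ, Real.cos s = Real.cos s' → Real.sin s = Real.sin s' →
      |Q s| = |Q s'| := by
    have hm : ∀ (m : ℕ) (s : ℝ), |Q (s + m * (2 * Real.pi))| = |Q s| := by
      intro m
      induction m with
      | zero => intro s; simp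
      | succ m ih =>
        intro s
        rw [show s + ((m + 1 : ℕ) : ℝ) * (2 * Real.pi) = (s + m * (2 * Real.pi)) + 2 * Real.pi by
          push_cast; ring, hanti, abs_neg, ih]
    intro s s' h1 h2
    wlog hle : s' ≤ s generalizing s s'
    · exact (this s' s h1.symm h2.symm (not_le.1 hle).le).symm
    have h3 : Real.cos (s - s') = 1 := by
      rw [Real.cos_sub, h1, h2]
      have := Real.sin_sq_add_cos_sq s'
      nlinarith
    obtain ⟨n, hn⟩ := (Real.cos_eq_one_iff _).1 h3
    have hn0 : 0 ≤ n := by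
      have h6 : (0 : ℝ) ≤ n := by
        by_contra hcon
        push Not at hcon
        nlinarith
      exact_mod_cast h6
    obtain ⟨m, rfl⟩ := Int.eq_ofNat_of_zero_le hn0
    have h4 : s = s' + m * (2 * Real.pi) := by
      push_cast at hn
      linarith
    rw [h4, hm]
  obtain ⟨φ, φ', hφ, hxφ, hyφ, hx', hy', hz', σ, hσ, hσpos, w, hw2, hw⟩ :=
    boundary_structure (fun t => X (exp (t * I))) (fun t => Y (exp (t * I)))
      (fun t => Z (exp (t * I)))
      (fun t => fderivWithin ℝ X (closedBall 0 1) (exp (t * I)) (exp (t * I) * I))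
      (fun t => fderivWithin ℝ Y (closedBall 0 1) (exp (t * I)) (exp (t * I) * I))
      (fun t => fderivWithin ℝ Z (closedBall 0 1) (exp (t * I)) (exp (t * I) * I))
      (hchain X hX) (hchain Y hY) (hchain Z hZ) (hchainc X hX) (hchainc Y hY)
      (fun t => by simp only [hexp2]) (fun t => by simp only [hexp2])
      (fun t => by simp only [hexp2])
      (fun t => by
        obtain ⟨s, h1, h2, -⟩ := hsub t
        simp only [h1, h2]
        rw [add_comm]
        exact Real.sin_sq_add_cos_sq s)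
      (fun t h1 h2 => himm _ (hmem t) _
        (mul_ne_zero (Complex.exp_ne_zero _) Complex.I_ne_zero) h1 h2)
      Q (deriv Q) hQd hanti
      (fun t s h1 h2 => by
        obtain ⟨s', h1', h2', h3'⟩ := hsub t
        simp only [h3']
        exact hzabs s' s (h1'.symm.trans h1) (h2'.symm.trans h2))
      hsup s1 hs1
  obtain ⟨A, s0, hA, hpol, haa⟩ := aa_polar α β h
  -- values on the curve
  have hQper : ∀ s, Q (s + 4 * Real.pi) = Q s := by
    intro s
    rw [show s + 4 * Real.pi = (s + 2 * Real.pi) + 2 * Real.pi by ring, hanti, hanti, neg_neg]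
  have hval : ∀ s, |α * Real.cos s + β * Real.sin s + γ * Q s| ≤ A := by
    set E : ℝ → ℝ := fun s => α * Real.cos s + β * Real.sin s + γ * Q s with hE
    have hEd : ∀ s, HasDerivAt E (aa α β s + γ * deriv Q s) s := by
      intro s
      have h1 := (((Real.hasDerivAt_cos s).const_mul α).add
        ((Real.hasDerivAt_sin s).const_mul β)).add ((hQd s).const_mul γ)
      refine HasDerivAt.congr_deriv h1 ?_
      simp only [aa]; ring
    have hEc : Continuous E := continuous_iff_continuousAt.2 fun s => (hEd s).continuousAt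
    have hEper : Function.Periodic E (4 * Real.pi) := by
      intro s
      simp only [hE, hQper]
      rw [show s + 4 * Real.pi = (s + 2 * Real.pi) + 2 * Real.pi by ring, Real.cos_add_two_pi,
        Real.cos_add_two_pi, Real.sin_add_two_pi, Real.sin_add_two_pi]
    have hcrit : ∀ s, aa α β s + γ * deriv Q s = 0 → |E s| ≤ A := by
      intro s hs
      have h0 : aa α β s = 0 := by
        by_contra hne
        have h1 := hQ2 s hne
        have h2 : γ * deriv Q s = -aa α β s := by linarith
        rw [h2, abs_neg] at h1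
        exact lt_irrefl _ h1
      simp only [hE]
      rw [(hQ1 s h0).1, hpol, mul_zero, add_zero, abs_mul, abs_of_pos hA]
      have := Real.abs_cos_le_one (s - s0)
      nlinarith
    have hcomp := hEper.compact_of_continuous (by positivity) hEc
    obtain ⟨-, ⟨sM, rfl⟩, hM⟩ := hcomp.exists_isMaxOn (range_nonempty E) continuousOn_id
    obtain ⟨-, ⟨sm, rfl⟩, hm⟩ := hcomp.exists_isMinOn (range_nonempty E) continuousOn_id
    have hM' : ∀ s, E s ≤ E sM := fun s => hM ⟨s, rfl⟩
    have hm' : ∀ s, E sm ≤ E s := fun s => hm ⟨s, rfl⟩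
    have h1 : aa α β sM + γ * deriv Q sM = 0 :=
      (IsLocalMax.hasDerivAt_eq_zero (Eventually.of_forall hM') (hEd sM))
    have h2 : aa α β sm + γ * deriv Q sm = 0 :=
      (IsLocalMin.hasDerivAt_eq_zero (Eventually.of_forall hm') (hEd sm))
    intro s
    have h3 := abs_le.1 (hcrit sM h1)
    have h4 := abs_le.1 (hcrit sm h2)
    exact abs_le.2 ⟨h4.1.trans (hm' s), (hM' s).trans h3.2⟩
  have hfval : ∀ t : ℝ, |α * X (exp (t * I)) + β * Y (exp (t * I)) + γ * Z (exp (t * I))| ≤ A := by
    intro t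
    obtain ⟨s, h1, h2, h3⟩ := hsub t
    rw [h1, h2, h3]
    exact hval s
  have hfext : ∀ t : ℝ, aa α β (φ t) = 0 →
      α * X (exp (t * I)) + β * Y (exp (t * I)) + γ * Z (exp (t * I)) = A * Real.cos (φ t - s0) := by
    intro t h0
    have h1 : Z (exp (t * I)) = 0 := by
      obtain ⟨s, h1, h2, h3⟩ := hsub t
      have h4 := hzabs s (φ t) (h1.symm.trans (hxφ t)) (h2.symm.trans (hyφ t))
      rw [(hQ1 _ h0).1, abs_zero] at h4
      rw [h3]
      exact abs_eq_zero.1 h4
    have h2 := hxφ t
    have h3 := hyφ t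
    rw [h1, h2, h3, hpol, mul_zero, add_zero]
  have hσ2 : σ * σ = 1 := by rcases hσ with h | h <;> rw [h] <;> norm_num
  have hcosσ : ∀ u : ℝ, Real.cos (σ * u) = Real.cos u := by
    intro u
    rcases hσ with h | h
    · rw [h, one_mul]
    · rw [h, neg_one_mul, Real.cos_neg]
  have hsinσ : ∀ u : ℝ, Real.sin (σ * u) = σ * Real.sin u := by
    intro u
    rcases hσ with h | h
    · rw [h, one_mul, one_mul]
    · rw [h, neg_one_mul, neg_one_mul, Real.sin_neg]
  have hφc : Continuous φ := continuous_iff_continuousAt.2 fun t => (hφ t).continuousAt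
  have hfc : ContDiffOn ℝ 1 (fun z => α * X z + β * Y z + γ * Z z) (closedBall 0 1) :=
    ((contDiffOn_const.mul hX).add (contDiffOn_const.mul hY)).add (contDiffOn_const.mul hZ)
  -- derivative along the boundary
  set ft : ℝ → ℝ := fun t =>
    α * fderivWithin ℝ X (closedBall 0 1) (exp (t * I)) (exp (t * I) * I) +
    β * fderivWithin ℝ Y (closedBall 0 1) (exp (t * I)) (exp (t * I) * I) +
    γ * fderivWithin ℝ Z (closedBall 0 1) (exp (t * I)) (exp (t * I) * I) with hft
  have hftd : ∀ t, HasDerivAt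
      (fun t : ℝ => (fun z => α * X z + β * Y z + γ * Z z) (exp (t * I))) (ft t) t := by
    intro t
    exact (((hchain X hX t).const_mul α).add ((hchain Y hY t).const_mul β)).add
      ((hchain Z hZ t).const_mul γ)
  have hft2 : ∀ t, ft t = aa α β (φ t) * φ' t +
      γ * fderivWithin ℝ Z (closedBall 0 1) (exp (t * I)) (exp (t * I) * I) := by
    intro t
    have h1 := hx' t
    have h2 := hy' t
    simp only [hft]
    rw [h1, h2, aa]
    ring
  have hft0 : ∀ t, aa α β (φ t) = 0 → ft t = 0 := by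
    intro t h0
    have h1 := hz' t
    rw [(hQ1 _ h0).2, abs_zero, zero_mul] at h1
    rw [hft2, h0, abs_eq_zero.1 h1]
    ring
  have hftlt : ∀ t, aa α β (φ t) ≠ 0 → |ft t - aa α β (φ t) * φ' t| < |aa α β (φ t) * φ' t| := by
    intro t hne
    have h1 := hz' t
    have h2 := hQ2 _ hne
    have h3 : φ' t ≠ 0 := by
      intro h0
      have := hσpos t
      rw [h0, mul_zero] at this
      exact lt_irrefl _ this
    have h4 : ft t - aa α β (φ t) * φ' t =
        γ * fderivWithin ℝ Z (closedBall 0 1) (exp (t * I)) (exp (t * I) * I) := by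
      rw [hft2]; ring
    rw [h4, abs_mul, h1, ← mul_assoc, ← abs_mul, abs_mul (aa α β (φ t))]
    exact mul_lt_mul_of_pos_right h2 (abs_pos.2 h3)
  have hle := disc_winding (fun z => α * X z + β * Y z + γ * Z z) hfc hcon ft hftd
    (fun t => σ * (φ t - s0)) (by fun_prop) w
    (fun t => by
      have := hw t
      linear_combination this)
    (fun t ht => by
      rw [hsinσ] at ht
      have h1 : aa α β (φ t) * φ' t = -(A * ((σ * Real.sin (φ t - s0)) * (σ * φ' t))) := by
        rw [haa]
        linear_combination (A * Real.sin (φ t - s0) * φ' t) * hσ2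
      have h2 : 0 < A * ((σ * Real.sin (φ t - s0)) * (σ * φ' t)) :=
        mul_pos hA (mul_pos ht (hσpos t))
      have hne : aa α β (φ t) ≠ 0 := by
        intro h0
        rw [h0, zero_mul] at h1
        linarith
      have h3 := hftlt t hne
      rw [h1, abs_neg, abs_of_pos h2] at h3
      have h4 := (abs_lt.1 h3).2
      linarith)
    (fun t ht => by
      rw [hsinσ] at ht
      have h1 : aa α β (φ t) * φ' t = -(A * ((σ * Real.sin (φ t - s0)) * (σ * φ' t))) := by
        rw [haa]
        linear_combination (A * Real.sin (φ t - s0) * φ' t) * hσ2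
      have h2 : A * ((σ * Real.sin (φ t - s0)) * (σ * φ' t)) < 0 :=
        mul_neg_of_pos_of_neg hA (mul_neg_of_neg_of_pos ht (hσpos t))
      have hne : aa α β (φ t) ≠ 0 := by
        intro h0
        rw [h0, zero_mul] at h1
        linarith
      have h3 := hftlt t hne
      rw [h1, abs_neg, abs_of_neg h2] at h3
      have h4 := (abs_lt.1 h3).1
      linarith)
    (fun t ht => by
      rw [hcosσ] at ht
      have h1 : Real.sin (φ t - s0) = 0 := by
        have := Real.sin_sq_add_cos_sq (φ t - s0)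
        rw [ht] at this
        nlinarith
      have h0 : aa α β (φ t) = 0 := by rw [haa, h1]; ring
      refine ⟨hft0 t h0, fun s => ?_⟩
      rw [hfext t h0, ht, mul_one]
      exact (abs_le.1 (hfval s)).2)
    (fun t ht => by
      rw [hcosσ] at ht
      have h1 : Real.sin (φ t - s0) = 0 := by
        have := Real.sin_sq_add_cos_sq (φ t - s0)
        rw [ht] at this
        nlinarith
      have h0 : aa α β (φ t) = 0 := by rw [haa, h1]; ring
      refine ⟨hft0 t h0, fun s => ?_⟩
      rw [hfext t h0, ht, mul_neg_one]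
      exact (abs_le.1 (hfval s)).1)
  omega

end Pool.Agent.V11192.Frames
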