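import Pool.Agent.V11192.Frames.Boundary

/-!
The height profile of the two-sheeted curve over the unit circle.
-/

set_option autoImplicit false
open Set Filter Topology Metric
open scoped ContDiff

namespace Pool.Agent.V11192.Frames

/-- The tangential component. -/
noncomputable def aa (α β s : ℝ) : ℝ := -α * Real.sin s + β * Real.cos s

theorem aa_contDiff (α β : ℝ) : ContDiff ℝ ∞ (aa α β) := by
  unfold aa
  fun_prop

theorem aa_add (α β s : ℝ) : aa α β (s + 2 * Real.pi) = aa α β s := by
  simp [aa, Real.sin_add_two_pi, Real.cos_add_two_pi]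

theorem aa_zero_subsingleton (α β : ℝ) (h : α ≠ 0 ∨ β ≠ 0) :
    ({s | s ∈ Ioo 0 Real.pi ∧ aa α β s = 0} : Set ℝ).Subsingleton := by
  intro s hs t ht
  by_contra hne
  wlog hlt : s < t generalizing s t
  · exact this ht hs (fun h => hne h.symm) (lt_of_le_of_ne (not_lt.1 hlt) (fun h => hne h.symm))
  have h1 := hs.2
  have h2 := ht.2
  simp only [aa] at h1 h2
  have h3 : 0 < Real.sin (t - s) :=
    Real.sin_pos_of_pos_of_lt_pi (by linarith) (by linarith [ht.1.2, hs.1.1])
  rw [Real.sin_sub] at h3
  have h4 : α * (Real.sin t * Real.cos s - Real.cos t * Real.sin s) = 0 := by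
    linear_combination (-Real.cos s) * h2 + Real.cos t * h1
  have h5 : β * (Real.sin t * Real.cos s - Real.cos t * Real.sin s) = 0 := by
    linear_combination (-Real.sin s) * h2 + Real.sin t * h1
  rcases h with h | h
  · exact h3.ne' ((mul_eq_zero.1 h4).resolve_left h)
  · exact h3.ne' ((mul_eq_zero.1 h5).resolve_left h)

/-- Existence of the profile. -/
theorem exists_profile (k : ℕ) (α β γ : Fin k → ℝ) (h : ∀ j, α j ≠ 0 ∨ β j ≠ 0) :
    ∃ Q : ℝ → ℝ, ContDiff ℝ ∞ Q ∧ (∀ s, Q (s + 2 * Real.pi) = -Q s) ∧ (∃ s, Q s ≠ 0) ∧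
      ∀ j s, (aa (α j) (β j) s = 0 → Q s = 0 ∧ deriv Q s = 0) ∧
        (aa (α j) (β j) s ≠ 0 → |γ j * deriv Q s| < |aa (α j) (β j) s|) := by
  classical
  have hpi := Real.pi_pos
  set S : Fin k → ℝ → ℝ := fun j s => (∏ i ∈ Finset.univ.erase j, aa (α i) (β i) s ^ 2) *
    Real.cos (s / 2) with hS
  set Q0 : ℝ → ℝ := fun s => (∏ i, aa (α i) (β i) s ^ 2) * Real.cos (s / 2) with hQ0
  have hSs : ∀ j, ContDiff ℝ ∞ (S j) := by
    intro j
    simp only [hS]
    apply ContDiff.mul
    · apply contDiff_prod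
      intro i _
      exact (aa_contDiff _ _).pow 2
    · fun_prop
  have hQ0s : ContDiff ℝ ∞ Q0 := by
    simp only [hQ0]
    apply ContDiff.mul
    · apply contDiff_prod
      intro i _
      exact (aa_contDiff _ _).pow 2
    · fun_prop
  have hfac : ∀ j s, Q0 s = aa (α j) (β j) s ^ 2 * S j s := by
    intro j s
    simp only [hQ0, hS]
    rw [← mul_assoc, Finset.mul_prod_erase Finset.univ (fun i => aa (α i) (β i) s ^ 2)
      (Finset.mem_univ j)]
  have hSper : ∀ j, Function.Periodic (S j) (4 * Real.pi) := by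
    intro j s
    simp only [hS]
    have h1 : ∀ i, aa (α i) (β i) (s + 4 * Real.pi) = aa (α i) (β i) s := by
      intro i
      rw [show s + 4 * Real.pi = (s + 2 * Real.pi) + 2 * Real.pi by ring, aa_add, aa_add]
    have h2 : (s + 4 * Real.pi) / 2 = s / 2 + 2 * Real.pi := by ring
    simp only [h1, h2, Real.cos_add_two_pi]
  have hanti : ∀ s, Q0 (s + 2 * Real.pi) = -Q0 s := by
    intro s
    simp only [hQ0, aa_add]
    rw [show (s + 2 * Real.pi) / 2 = s / 2 + Real.pi by ring, Real.cos_add_pi]
    ring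
  -- the bound
  have hbound : ∀ j, ∃ C : ℝ, 0 ≤ C ∧ ∀ s, |deriv Q0 s| ≤ C * |aa (α j) (β j) s| := by
    intro j
    set a : ℝ → ℝ := aa (α j) (β j) with ha
    have has : ContDiff ℝ ∞ a := aa_contDiff _ _
    have haper : Function.Periodic a (4 * Real.pi) := by
      intro s
      rw [show s + 4 * Real.pi = (s + 2 * Real.pi) + 2 * Real.pi by ring, ha, aa_add, aa_add]
    set R : ℝ → ℝ := fun s => 2 * deriv a s * S j s + a s * deriv (S j) s with hR
    have hRc : Continuous R := by
      have h1 : Continuous (deriv a) := has.continuous_deriv (by simp)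
      have h2 : Continuous (deriv (S j)) := (hSs j).continuous_deriv (by simp)
      have h3 := (hSs j).continuous
      have h4 := has.continuous
      fun_prop
    have hderiv_per : ∀ f : ℝ → ℝ, Function.Periodic f (4 * Real.pi) →
        Function.Periodic (deriv f) (4 * Real.pi) := by
      intro f hf s
      have h1 : deriv (fun t => f (t + 4 * Real.pi)) s = deriv f (s + 4 * Real.pi) :=
        deriv_comp_add_const _ _ _
      rw [← h1]
      have h2 : (fun t => f (t + 4 * Real.pi)) = f := funext hf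
      rw [h2]
    have hRper : Function.Periodic R (4 * Real.pi) := by
      intro s
      simp only [hR]
      rw [hderiv_per a haper s, hSper j s, haper s, hderiv_per (S j) (hSper j) s]
    obtain ⟨C, hC⟩ := (hRper.isBounded_of_continuous (by positivity) hRc).exists_norm_le
    refine ⟨C, (norm_nonneg _).trans (hC (R 0) ⟨0, rfl⟩), fun s => ?_⟩
    have h1 : deriv Q0 s = a s * R s := by
      have hQ0eq : Q0 = fun s => a s ^ 2 * S j s := funext (hfac j)
      have hd1 : HasDerivAt a (deriv a s) s := (has.differentiable (by simp) s).hasDerivAt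
      have hd2 : HasDerivAt (S j) (deriv (S j) s) s :=
        ((hSs j).differentiable (by simp) s).hasDerivAt
      have hd3 := (hd1.pow 2).mul hd2
      rw [hQ0eq]
      have hd4 : HasDerivAt (fun s => a s ^ 2 * S j s) (a s * R s) s := by
        refine HasDerivAt.congr_deriv hd3 ?_
        simp only [hR, Pi.pow_apply]
        simp
        ring
      exact hd4.deriv
    rw [h1, abs_mul, mul_comm]
    exact mul_le_mul_of_nonneg_right (hC (R s) ⟨s, rfl⟩) (abs_nonneg _)
  choose C hC0 hC using hbound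
  set ε : ℝ := 1 / (1 + ∑ j, |γ j| * C j) with hε
  have hden : 0 < 1 + ∑ j, |γ j| * C j := by
    have : 0 ≤ ∑ j, |γ j| * C j := Finset.sum_nonneg fun j _ => mul_nonneg (abs_nonneg _) (hC0 j)
    linarith
  have hεpos : 0 < ε := by positivity
  have hεlt : ∀ j, ε * (|γ j| * C j) < 1 := by
    intro j
    have h1 : |γ j| * C j ≤ ∑ j, |γ j| * C j :=
      Finset.single_le_sum (f := fun j => |γ j| * C j)
        (fun j _ => mul_nonneg (abs_nonneg _) (hC0 j)) (Finset.mem_univ j)
    rw [hε, one_div, inv_mul_lt_iff₀ hden]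
    linarith
  have hderivQ : ∀ s, deriv (fun s => ε * Q0 s) s = ε * deriv Q0 s := by
    intro s
    exact ((hQ0s.differentiable (by simp) s).hasDerivAt.const_mul ε).deriv
  refine ⟨fun s => ε * Q0 s, contDiff_const.mul hQ0s, fun s => ?_, ?_, fun j s => ⟨?_, ?_⟩⟩
  · simp only [hanti]; ring
  · have hfin : (⋃ j, {s | s ∈ Ioo 0 Real.pi ∧ aa (α j) (β j) s = 0} : Set ℝ).Finite :=
      Set.finite_iUnion fun j => (aa_zero_subsingleton _ _ (h j)).finite
    obtain ⟨s, hs, hs'⟩ := ((Ioo_infinite hpi).sdiff hfin).nonempty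
    refine ⟨s, ?_⟩
    simp only [mem_iUnion, mem_ofPred_eq, not_exists, not_and] at hs'
    simp only [hQ0]
    refine mul_ne_zero hεpos.ne' (mul_ne_zero ?_ ?_)
    · rw [Finset.prod_ne_zero_iff]
      intro i _
      exact pow_ne_zero _ (hs' i hs)
    · exact (Real.cos_pos_of_mem_Ioo ⟨by linarith [hs.1], by linarith [hs.2]⟩).ne'
  · intro h0
    constructor
    · simp only [hfac j, h0]; ring
    · rw [hderivQ]
      have h1 := hC j s
      rw [h0, abs_zero, mul_zero] at h1
      have h2 : deriv Q0 s = 0 := abs_eq_zero.1 (le_antisymm h1 (abs_nonneg _))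
      rw [h2, mul_zero]
  · intro hne
    rw [hderivQ, abs_mul, abs_mul, abs_of_pos hεpos]
    have h1 := hC j s
    have h2 := hεlt j
    have h3 : 0 < |aa (α j) (β j) s| := abs_pos.2 hne
    calc |γ j| * (ε * |deriv Q0 s|) ≤ |γ j| * (ε * (C j * |aa (α j) (β j) s|)) := by
          gcongr
      _ = (ε * (|γ j| * C j)) * |aa (α j) (β j) s| := by ring
      _ < 1 * |aa (α j) (β j) s| := by
          exact mul_lt_mul_of_pos_right h2 h3
      _ = _ := one_mul _

end Pool.Agent.V11192.Frames
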